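import Pool.Agent.H514Z.AT.Main

set_option autoImplicit false

namespace Pool.Agent.Results.MP_b6e843_mp.Singular

open MeasureTheory ProbabilityTheory Pool.Agent.H514Z.AT

/-- If `∑ 1 / s n = ∞`, then for every single site law on `[-1, 1]` of positive variance and every
disorder `lam > 0`, almost surely every spectral measure of the Anderson operator on the antitree
is singular with respect to Lebesgue measure. -/
theorem result (s : ℕ → ℕ) (hs : ∀ n, 0 < s n) (hdiv : ¬ Summable (fun n => (s n : ℝ)⁻¹))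
    (P : Measure ℝ) [IsProbabilityMeasure P] (hsupp : P (Set.Icc (-1 : ℝ) 1)ᶜ = 0)
    (hvar : 0 < variance id P) (lam : ℝ) (hlam : 0 < lam)
    (Ω : Type) [MeasurableSpace Ω] (Q : Measure Ω) [IsProbabilityMeasure Q]
    (v : Vtx s → Ω → ℝ) (hv : ∀ x, Measurable (v x)) (hind : iIndepFun v Q)
    (hlaw : ∀ x, Q.map (v x) = P) :
    ∀ᵐ ω ∂Q, ∃ H : L2 s →L[ℂ] L2 s, IsAnderson s lam (fun x => v x ω) H ∧ IsSelfAdjoint H ∧
      ∀ ψ : L2 s, (∃ μ : Measure ℝ, IsSpecMeas H ψ μ) ∧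
        ∀ μ : Measure ℝ, IsSpecMeas H ψ μ → μ ⟂ₘ volume := by
  have hP : ∀ c, ¬ ∀ᵐ x ∂P, x = c := by
    intro c hc
    have h1 : variance id P = variance (fun _ : ℝ => c) P := variance_congr hc
    rw [h1, variance_eq_integral aemeasurable_const] at hvar
    simp at hvar
  obtain ⟨N, hN⟩ := growth hs hdiv Q v hv hind P hlaw hP lam hlam.ne'
  have hb : ∀ᵐ ω ∂Q, ∀ x, v x ω ∈ Set.Icc (-1 : ℝ) 1 := by
    rw [ae_all_iff]
    intro x
    apply ae_of_ae_map (p := fun t => t ∈ Set.Icc (-1 : ℝ) 1) (hv x).aemeasurable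
    rw [hlaw x]
    exact hsupp
  filter_upwards [hN, hb] with ω h1 h2
  obtain ⟨H, hH, hsa⟩ := exists_anderson lam (fun x => v x ω) (fun x => abs_le.2 (h2 x))
  exact ⟨H, hH, hsa, fun ψ => ⟨exists_spec hsa ψ, det_sing hs hH hsa N h1 ψ⟩⟩

end Pool.Agent.Results.MP_b6e843_mp.Singular
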